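import Pool.Agent.MWK.Stmts

/-!
# Row mwk SWK: adjacent letters which are both not first occurrences commute
-/

set_option autoImplicit false

namespace Pool.Agent.MWK.H27

open Pool.Agent.Helper14_MV Pool.Agent.Helper2_MV
open Pool.Agent.MWK

theorem dd (fre : FreStmt) {θ : FIC} (h : Kc θ) {P : List ℕ} {a b : ℕ} (Q : List ℕ) (ha : a ∈ P)
    (hb : b ∈ P) : RR θ (P ++ ([a, a, b, b] ++ Q)) (P ++ a :: b :: Q) := by
  have ca : 1 ≤ P.count a := List.count_pos_iff.2 ha
  have cb : 1 ≤ P.count b := List.count_pos_iff.2 hb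
  have h1 := fre θ h (P ++ [a]) [a] (b :: Q) (by
    intro l hl
    rw [List.mem_singleton] at hl
    subst hl
    rw [List.count_append]
    simp
    omega)
  have h2 := fre θ h (P ++ [a, a, b]) [b] Q (by
    intro l hl
    rw [List.mem_singleton] at hl
    subst hl
    rw [List.count_append]
    have : 1 ≤ List.count l [a, a, l] := List.count_pos_iff.2 (by simp)
    omega)
  have e1 : P ++ [a] ++ [a] ++ b :: Q = P ++ [a, a, b] ++ Q := by simp
  have e2 : P ++ [a] ++ b :: Q = P ++ a :: b :: Q := by simp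
  have e3 : P ++ [a, a, b] ++ [b] ++ Q = P ++ ([a, a, b, b] ++ Q) := by simp
  rw [e1, e2] at h1
  rw [e3] at h2
  exact θ.trans h2 h1

theorem swk (fre : FreStmt) : SwkStmt := by
  intro θ h P a b Q ha hb
  have h1 := dd fre h Q ha hb
  have h2 := dd fre h Q hb ha
  have h3 : RR θ [a, a, b, b] [b, b, a, a] :=
    h.c.sub (fun i => if i = 0 then [a] else [b])
  have h4 : RR θ (P ++ ([a, a, b, b] ++ Q)) (P ++ ([b, b, a, a] ++ Q)) :=
    (RR.refl (β := θ) P).append (h3.append (RR.refl (β := θ) Q))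
  exact θ.trans h1.symm (θ.trans h4 h2)

end Pool.Agent.MWK.H27
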